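import Pool.Agent.R902.HN.Bridge

/-!
# MP_3d6eda_nt: `N_𝒢` belongs to the maximal equivalence class

The definitions are in `Pool/Agent/R902/HN/Disp.lean`: `InS f` says that `f` is in `𝒮` (locally
constant and compactly supported), `act` is the Schrödinger representation, `IsHNorm ψ N` says that
`N` restricted to `𝒮` is an `ℋ`-invariant norm, and `NG ψ f` is the supremum of
`‖T f‖_∞ / ‖T 1_{ℤ_p^d}‖_∞` over all `g ∈ Sp_{2d}(ℚ_p)` and all intertwining operators `T` for `g`.

The pieces in `Pool/Agent/R902/HN` were written by helpers 193, 441, 472, 610, 619, 679, 710, 796,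
865, 902 and 928.
-/

open scoped PadicComplex

namespace Pool.Agent.Results.MP_3d6eda_nt.GrassmannianNorm

open Pool.R902.HND

/-- For every prime `p`, every `d` and every non-trivial smooth character `ψ` of `ℚ_p`, the
supremum `N_𝒢` is finite on `𝒮`, is an `ℋ`-invariant norm on `𝒮`, and dominates every
`ℋ`-invariant norm on `𝒮`. -/
theorem result (p : ℕ) [Fact p.Prime] (d : ℕ) (ψ : ℚ_[p] → ℂ_[p]) (hψ : IsChar ψ) :
    (∀ f : E p d → ℂ_[p], InS f → NG ψ f ≠ ⊤) ∧
    IsHNorm ψ (fun f : E p d → ℂ_[p] => (NG ψ f).toReal) ∧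
    ∀ N : (E p d → ℂ_[p]) → ℝ, IsHNorm ψ N →
      ∃ C : ℝ, 0 < C ∧ ∀ f, InS f → N f ≤ C * (NG ψ f).toReal := by
  have hK : ‖(p : ℂ_[p])‖ = (p : ℝ)⁻¹ := by
    have h := PadicComplex.norm_extends' p (p : ℚ_[p])
    rw [Padic.norm_p] at h
    exact_mod_cast h
  exact Pool.R902.HNB.main_plain ℂ_[p] p hK d ψ hψ

end Pool.Agent.Results.MP_3d6eda_nt.GrassmannianNorm
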